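import Pool.Agent.Lib.MP_33b3f9_ag.MG.G.Fin

/-!
The Mumford-Tate conjecture (at the prime 2) for simple abelian varieties over number fields that
satisfy the Igusa condition.
-/

open Matrix Pool.Agent.Lib.MP_33b3f9_ag
open Pool.Agent.MG (ν Unif ActsU End0)

theorem Pool.Agent.Results.MP_33b3f9_ag.IgusaCriterion.result
    (K : IntermediateField ℚ ℂ) [FiniteDimensional ℚ K] {ι : Type} [Fintype ι] (g : ℕ) (hg : 0 < g)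
    (J : Set (MvPolynomial ι K)) (p : (ν g → ℝ) ≃ₗ[ℝ] (Fin g → ℂ)) (u : (Fin g → ℂ) → ι → ℂ)
    (hA : Unif J p u) (I : Matrix (ν g) (ν g) ℝ) (hI : ∀ x, p (I *ᵥ x) = Complex.I • p x)
    (hS : ∀ d ∈ End0 I, d ≠ 0 → IsUnit d)
    (r : (ℂ ≃ₐ[K] ℂ) →* GL (ν g) ℤ_[2]) (hr : ∀ σ : ℂ ≃ₐ[K] ℂ, ActsU p u σ (r σ))
    {κ : Type} [Fintype κ] [DecidableEq κ] (s : (ℂ ≃ₐ[K] ℂ) →* GL κ ℤ_[2]) (m : ℕ)
    (e : (Fin m → κ → ℚ_[2]) ≃ₗ[ℚ_[2]] (ν g → ℚ_[2]))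
    (he : ∀ σ x, e (fun i => (toQ (s σ)).val *ᵥ x i) = (toQ (r σ)).val *ᵥ e x)
    (E : Matrix κ κ ℤ_[2]) (hE : Eᵀ = -E)
    (hW : ∀ σ, (s σ).valᵀ * E * (s σ).val = (cyclo σ).val • E) (hT : Igusa s cyclo E)
    (U : Subgroup (ℂ ≃ₐ[K] ℂ)) (hU : U.FiniteIndex)
    (h : (fun σ => toQ (r σ)) '' U ⊆ zeroSet ℚ_[2] (mtEqns I)) :
    zcl (AlgebraicClosure ℚ_[2]) ((fun σ => toQ (r σ)) '' U) =
      zeroSet (AlgebraicClosure ℚ_[2]) (mtEqns I) :=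
  MG.G.main hg hA hI r hr hS s e he E hE hW hT U hU h
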