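import Pool.Agent.Lib.MP_33b3f9_ag.Main
import Pool.Agent.Lib.MP_33b3f9_ag.Star

/-!
The Mumford-Tate conjecture (at the prime 2) for hyperelliptic Jacobians whose differences of
branch points satisfy the Kummer-Laplacian criterion `Kummer`, or one of the conditions
`Edges` (isolated pairs), `Net` (isolated triples), `SLTwo` (Galois group) that imply it.
-/

open Pool.Agent.Lib.MP_33b3f9_ag

namespace Pool.Agent.Results.MP_33b3f9_ag.KummerCriterion

theorem result {k₁ : Type*} [Field k₁] [CharZero k₁] (hfg : (⊤ : IntermediateField ℚ k₁).FG)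
    {k : Type*} [Field k] [Algebra k₁ k] [IsAlgClosure k₁ k] (g : ℕ) (hg : 3 ≤ g)
    (a : Fin (2 * g + 1) → k₁) (hinj : Function.Injective a)
    (hc : Kummer a ∨ Edges a ∨ Net a ∨ SLTwo a) :
    MTHolds (Fin (2 * g)) (gal (k := k) a) :=
  ⟨exists_tate g a hinj, fun π ρ h => main hfg g hg a hinj
    (hc.elim (crit_iff a).mpr fun h' => h'.elim (crit_of_edges a) fun h'' => h''.elim
      (crit_of_net a (by rw [Fintype.card_fin]; omega))
      (crit_of_sltwo a hinj (by rw [Fintype.card_fin]; omega) (by
        rw [Fintype.card_fin, Nat.cast_add, Nat.cast_mul, ZMod.natCast_self, zero_mul, zero_add,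
          Nat.cast_one]))) π ρ h⟩

end Pool.Agent.Results.MP_33b3f9_ag.KummerCriterion
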