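import Pool.Agent.Lib.MP_33b3f9_ag.MG.Core
import Pool.Agent.Lib.MP_33b3f9_ag.MG.T2.Main
import Pool.Agent.Lib.MP_33b3f9_ag.MG.T2.Two

/-!
The Mumford-Tate conjecture for abelian varieties of type II and relative dimension four.
-/

open Matrix Pool.Agent.MG Pool.Agent.Lib.MP_33b3f9_ag

theorem Pool.Agent.Results.MP_33b3f9_ag.TypeIIRelDimFour.result
    (K : IntermediateField ℚ ℂ) [FiniteDimensional ℚ K] {ι : Type} [Fintype ι] (g : ℕ)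
    (J : Set (MvPolynomial ι K)) (p : (ν g → ℝ) ≃ₗ[ℝ] (Fin g → ℂ)) (u : (Fin g → ℂ) → ι → ℂ)
    (hA : Unif J p u) (I : Matrix (ν g) (ν g) ℝ) (hI : ∀ x, p (I *ᵥ x) = Complex.I • p x)
    (F : Type) [Field F] [NumberField F] [NumberField.IsTotallyReal F]
    (hg : g = 8 * Module.finrank ℚ F) (a b : F)
    (φ : QuaternionAlgebra F a 0 b →ₐ[ℚ] Matrix (ν g) (ν g) ℚ)
    (hD : ∀ x : QuaternionAlgebra F a 0 b, x ≠ 0 → IsUnit x)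
    (hp : ∀ σ : F →+* ℝ, 0 < σ a ∨ 0 < σ b) (hE : Set.range φ = End0 I)
    (hL : Module.finrank ℚ F = 1 ∨ lef I ⊆ zeroSet ℂ (mtEqns I))
    (ℓ : ℕ) [Fact ℓ.Prime] (U : Subgroup (ℂ ≃ₐ[K] ℂ)) (hU : U.FiniteIndex)
    (h : galU p u ℓ U ⊆ zeroSet ℚ_[ℓ] (mtEqns I)) :
    zcl (AlgebraicClosure ℚ_[ℓ]) (galU p u ℓ U) = zeroSet (AlgebraicClosure ℚ_[ℓ]) (mtEqns I) :=
  hL.elim (fun hF => MG.T2.oneII hA hI hF hg φ hD hp hE ℓ U hU h) fun hL =>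
    MG.T2.main (fun h hP hτ hE hc hg => MG.full h hP hτ hE hc hg) hA hI F hg φ hD hp hE hL ℓ U hU h
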